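import Mathlib
import Pool.Agent.H98.Interp2

set_option autoImplicit false

namespace Pool.Agent.Results.MP_28fd2b_an.Strict

open Pool.Agent.H98.InterpDefs

universe u

theorem result (k : ℕ) (hk : 2 ≤ k) (S : Set ℕ) (hS : WeakInterpUE.{u} k S) :
    ubd S < 1 / (k : ℝ) :=
  Pool.Agent.H98.Interp.ubd_lt hk hS

end Pool.Agent.Results.MP_28fd2b_an.Strict
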